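import Pool.Agent.TH71.SC.Circ

/-! Blocks of inputs. -/

set_option autoImplicit false
set_option linter.unusedSectionVars false

namespace Pool.Agent.TH71.SC

open Equiv Finset

/-- `c` ones, then `d` copies of `b`, then zeros -/
def pat (c d l : ℕ) (b : Bool) : Bool := decide (l < c) || (decide (l < c + d) && b)

/-- every block gets the pattern, the other inputs are the indicator of `A` -/
noncomputable def blk {ι : Type} [DecidableEq ι] {k a : ℕ} (e : Fin k × Fin a ↪ ι) (A : Finset ι)
    (c d : ℕ) (z : Fin k → Bool) (i : ι) : Bool :=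
  open Classical in
  if h : ∃ p, e p = i then pat c d h.choose.2 (z h.choose.1) else decide (i ∈ A)

variable {ι : Type} [DecidableEq ι] {k a : ℕ} (e : Fin k × Fin a ↪ ι) (A : Finset ι) (c d : ℕ)

theorem blk_in (z : Fin k → Bool) (p : Fin k × Fin a) :
    blk e A c d z (e p) = pat c d p.2 (z p.1) := by
  have h : ∃ p', e p' = e p := ⟨p, rfl⟩
  have h2 : h.choose = p := e.injective h.choose_spec
  unfold blk
  rw [dif_pos h, h2]

theorem blk_out (z : Fin k → Bool) (i : ι) (hi : i ∉ Set.range e) :
    blk e A c d z i = decide (i ∈ A) := by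
  unfold blk
  rw [dif_neg (fun ⟨p, hp⟩ => hi ⟨p, hp⟩)]

theorem blk_ext (i : ι) : (∃ j, ∀ z, blk e A c d z i = z j) ∨ (∃ b, ∀ z, blk e A c d z i = b) := by
  by_cases h : i ∈ Set.range e
  · obtain ⟨p, rfl⟩ := h
    by_cases h1 : (p.2 : ℕ) < c
    · right; exact ⟨true, fun z => by rw [blk_in]; simp [pat, h1]⟩
    · by_cases h2 : (p.2 : ℕ) < c + d
      · left; exact ⟨p.1, fun z => by rw [blk_in]; simp [pat, h1, h2]⟩
      · right; exact ⟨false, fun z => by rw [blk_in]; simp [pat, h1, h2]⟩
  · right; exact ⟨_, fun z => blk_out e A c d z i h⟩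

theorem blk_sym (C : Circuit ι) (hC : C.BlockSymmetric e) (σ : Perm (Fin k)) :
    ∃ (π : Perm ι) (τ : Perm C.Gate), C.Aut π τ ∧ ∀ z, blk e A c d (z ∘ σ) = blk e A c d z ∘ π := by
  set π : Perm ι := Equiv.Perm.viaEmbedding
    (Equiv.prodCongr σ (Equiv.refl (Fin a)) : Perm (Fin k × Fin a)) e with hπ
  have h1 : ∀ j l, π (e (j, l)) = e (σ j, l) := by
    intro j l
    rw [hπ, Perm.viaEmbedding_apply]; rfl
  have h2 : ∀ i, i ∉ Set.range e → π i = i := by
    intro i hi
    rw [hπ, Perm.viaEmbedding_apply_of_notMem _ _ _ hi]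
  obtain ⟨τ, hτ⟩ := hC σ π h1 h2
  refine ⟨π, τ, hτ, fun z => ?_⟩
  funext i
  by_cases h : i ∈ Set.range e
  · obtain ⟨⟨j, l⟩, rfl⟩ := h
    rw [Function.comp_apply, h1, blk_in, blk_in]; rfl
  · rw [Function.comp_apply, h2 i h, blk_out e A c d _ i h, blk_out e A c d _ i h]

theorem blk_count [Fintype ι] (hcd : c + d ≤ a) (hA : ∀ i ∈ A, i ∉ Set.range e) (z : Fin k → Bool) :
    (univ.filter (fun i => blk e A c d z i = true)).card = k * c + d * wt z + A.card := by
  have e1 : univ.filter (fun i => blk e A c d z i = true) =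
      (univ.filter (fun p : Fin k × Fin a => pat c d p.2 (z p.1) = true)).map e ∪ A := by
    ext i
    simp only [Finset.mem_filter, Finset.mem_univ, true_and, Finset.mem_union, Finset.mem_map]
    by_cases h : i ∈ Set.range e
    · obtain ⟨p, rfl⟩ := h
      rw [blk_in]
      constructor
      · intro hp; exact Or.inl ⟨p, hp, rfl⟩
      · rintro (⟨p', hp', he⟩ | hiA)
        · rw [← e.injective he]; exact hp'
        · exact absurd ⟨p, rfl⟩ (hA _ hiA)
    · rw [blk_out e A c d z i h, decide_eq_true_eq]
      constructor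
      · intro hp; exact Or.inr hp
      · rintro (⟨p', _, he⟩ | hiA)
        · exact absurd ⟨p', he⟩ h
        · exact hiA
  have e2 : Disjoint ((univ.filter (fun p : Fin k × Fin a => pat c d p.2 (z p.1) = true)).map e) A := by
    rw [Finset.disjoint_left]
    intro i hi hiA
    rw [Finset.mem_map] at hi
    obtain ⟨p, _, rfl⟩ := hi
    exact hA _ hiA ⟨p, rfl⟩
  rw [e1, Finset.card_union_of_disjoint e2, Finset.card_map]
  congr 1
  have e3 : (univ.filter (fun p : Fin k × Fin a => pat c d p.2 (z p.1) = true)).card =
      ∑ j : Fin k, (if z j = true then c + d else c) := by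
    rw [Finset.card_filter, Fintype.sum_prod_type]
    apply Finset.sum_congr rfl
    intro j _
    rw [← Finset.card_filter]
    have cnt : ∀ b : ℕ, b ≤ a → (univ.filter (fun l : Fin a => (l : ℕ) < b)).card = b := by
      intro b hb
      rcases Nat.lt_or_ge b a with h | h
      · have := Fin.card_filter_val_lt (n := a) (m := b)
        rw [this]; omega
      · have hba : b = a := by omega
        subst hba
        have : (univ.filter (fun l : Fin b => (l : ℕ) < b)) = univ := by
          apply Finset.filter_true_of_mem; intro l _; exact l.2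
        rw [this, Finset.card_univ, Fintype.card_fin]
    by_cases h : z j = true
    · rw [if_pos h]
      have : (univ.filter (fun l : Fin a => pat c d (j, l).2 (z (j, l).1) = true)) =
          univ.filter (fun l : Fin a => (l : ℕ) < c + d) := by
        ext l
        simp only [pat, h, Finset.mem_filter, Finset.mem_univ, true_and, Bool.and_true,
          Bool.or_eq_true, decide_eq_true_eq]
        omega
      rw [this, cnt _ hcd]
    · rw [if_neg h]
      have : (univ.filter (fun l : Fin a => pat c d (j, l).2 (z (j, l).1) = true)) =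
          univ.filter (fun l : Fin a => (l : ℕ) < c) := by
        ext l
        simp [pat, h]
      rw [this, cnt _ (by omega)]
  rw [e3]
  have e4 : ∑ j : Fin k, (if z j = true then c + d else c) =
      ∑ j : Fin k, (c + (if z j = true then d else 0)) := by
    apply Finset.sum_congr rfl
    intro j _
    split_ifs <;> rfl
  rw [e4, Finset.sum_add_distrib, Finset.sum_const, Finset.card_univ, Fintype.card_fin, smul_eq_mul,
    ← Finset.sum_filter, Finset.sum_const, smul_eq_mul]
  unfold wt
  ring

end Pool.Agent.TH71.SC
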