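import Pool.Agent.TH71.SC.Sys

/-! Circuits with AND, OR, NOT and MOD gates. -/

set_option autoImplicit false
set_option linter.unusedSectionVars false

namespace Pool.Agent.TH71.SC

open Equiv Finset

/-- the kinds of gates -/
inductive Kind (ι : Type) where
  | input (i : ι)
  | const (b : Bool)
  | and
  | or
  | not
  | mod

/-- A circuit with inputs indexed by `ι`, of any depth and with gates of any fan-in;
`wires v w` is the number of wires from the gate `w` into the gate `v`. -/
structure Circuit (ι : Type) where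
  Gate : Type
  finite : Fintype Gate
  kind : Gate → Kind ι
  wires : Gate → Gate → ℕ
  rank : Gate → ℕ
  acyclic : ∀ v w, 0 < wires v w → rank w < rank v
  out : Gate

attribute [instance] Circuit.finite

namespace Circuit

variable {ι : Type}

/-- `u` is the assignment of values to the gates on the input `x`; MOD gates are true if the
number of wires with a true value is not divisible by `m` -/
structure Run (C : Circuit ι) (m : ℕ) (x : ι → Bool) (u : C.Gate → Bool) : Prop where
  input : ∀ v i, C.kind v = .input i → u v = x i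
  const : ∀ v b, C.kind v = .const b → u v = b
  and : ∀ v, C.kind v = .and → (u v = true ↔ ∀ w, 0 < C.wires v w → u w = true)
  or : ∀ v, C.kind v = .or → (u v = true ↔ ∃ w, 0 < C.wires v w ∧ u w = true)
  not : ∀ v, C.kind v = .not → (u v = true ↔ ∀ w, 0 < C.wires v w → u w = false)
  mod : ∀ v, C.kind v = .mod → (u v = true ↔ ¬ m ∣ ∑ w, C.wires v w * (u w).toNat)

/-- the circuit computes `f` -/
def Computes (C : Circuit ι) (m : ℕ) (f : (ι → Bool) → Bool) : Prop :=
  ∀ x, ∃ u, C.Run m x u ∧ u C.out = f x

/-- `τ` is an automorphism of the circuit which permutes the inputs by `π` -/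
def Aut (C : Circuit ι) (π : Equiv.Perm ι) (τ : Equiv.Perm C.Gate) : Prop :=
  (∀ v i, C.kind v = .input i → C.kind (τ v) = .input (π i)) ∧
  (∀ v, (∀ i, C.kind v ≠ .input i) → C.kind (τ v) = C.kind v) ∧
  (∀ v w, C.wires (τ v) (τ w) = C.wires v w)

/-- `e` marks `k` disjoint blocks of `a` inputs each, and every permutation of the blocks extends to
an automorphism of the circuit (the other inputs are fixed) -/
def BlockSymmetric {k a : ℕ} (C : Circuit ι) (e : Fin k × Fin a ↪ ι) : Prop :=
  ∀ (σ : Equiv.Perm (Fin k)) (π : Equiv.Perm ι), (∀ j l, π (e (j, l)) = e (σ j, l)) →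
    (∀ i, i ∉ Set.range e → π i = i) → ∃ τ : Equiv.Perm C.Gate, C.Aut π τ

/-- the number of gates -/
def size (C : Circuit ι) : ℕ := Fintype.card C.Gate

theorem Run.unique {C : Circuit ι} {m : ℕ} {x : ι → Bool} {u u' : C.Gate → Bool}
    (h : C.Run m x u) (h' : C.Run m x u') : u = u' := by
  have key : ∀ r v, C.rank v < r → u v = u' v := by
    intro r
    induction r with
    | zero => intro v hv; exact absurd hv (by omega)
    | succ r ih =>
      intro v hv
      have hc : ∀ w, 0 < C.wires v w → u w = u' w := fun w hw =>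
        ih w (by have := C.acyclic v w hw; omega)
      cases hk : C.kind v with
      | input i => rw [h.input v i hk, h'.input v i hk]
      | const b => rw [h.const v b hk, h'.const v b hk]
      | and =>
        rw [Bool.eq_iff_iff, h.and v hk, h'.and v hk]
        exact forall_congr' fun w => ⟨fun a b => (hc w b) ▸ a b, fun a b => (hc w b) ▸ a b⟩
      | or =>
        rw [Bool.eq_iff_iff, h.or v hk, h'.or v hk]
        exact exists_congr fun w => ⟨fun a => ⟨a.1, (hc w a.1) ▸ a.2⟩, fun a => ⟨a.1, (hc w a.1) ▸ a.2⟩⟩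
      | not =>
        rw [Bool.eq_iff_iff, h.not v hk, h'.not v hk]
        exact forall_congr' fun w => ⟨fun a b => (hc w b) ▸ a b, fun a b => (hc w b) ▸ a b⟩
      | mod =>
        rw [Bool.eq_iff_iff, h.mod v hk, h'.mod v hk]
        have : ∑ w, C.wires v w * (u w).toNat = ∑ w, C.wires v w * (u' w).toNat := by
          apply Finset.sum_congr rfl
          intro w _
          by_cases hw : 0 < C.wires v w
          · rw [hc w hw]
          · rw [Nat.eq_zero_of_not_pos hw, zero_mul, zero_mul]
        rw [this]
  funext v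
  exact key _ v (Nat.lt_succ_self _)

/-- pulling back a run along an automorphism -/
theorem Run.comp {C : Circuit ι} {m : ℕ} {x : ι → Bool} {u : C.Gate → Bool} (h : C.Run m x u)
    {π : Perm ι} {τ : Perm C.Gate} (hA : C.Aut π τ) :
    C.Run m (x ∘ π) (u ∘ τ) := by
  obtain ⟨h1, h2, h3⟩ := hA
  have hall : ∀ v (P : C.Gate → Prop), (∀ w, 0 < C.wires (τ v) w → P w) ↔
      ∀ w, 0 < C.wires v w → P (τ w) := by
    intro v P
    constructor
    · intro h w hw; exact h _ (by rw [h3]; exact hw)
    · intro h w hw
      obtain ⟨w', rfl⟩ := τ.surjective w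
      exact h w' (by rw [← h3]; exact hw)
  constructor
  · intro v i hk; exact h.input _ _ (h1 v i hk)
  · intro v b hk; exact h.const _ _ (by rw [h2 v (by simp [hk]), hk])
  · intro v hk
    simp only [Function.comp_apply]
    rw [h.and (τ v) (by rw [h2 v (by simp [hk]), hk]), hall v (fun w => u w = true)]
  · intro v hk
    simp only [Function.comp_apply]
    rw [h.or (τ v) (by rw [h2 v (by simp [hk]), hk])]
    constructor
    · rintro ⟨w, hw, hu⟩
      obtain ⟨w', rfl⟩ := τ.surjective w
      exact ⟨w', by rw [← h3]; exact hw, hu⟩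
    · rintro ⟨w, hw, hu⟩
      exact ⟨τ w, by rw [h3]; exact hw, hu⟩
  · intro v hk
    simp only [Function.comp_apply]
    rw [h.not (τ v) (by rw [h2 v (by simp [hk]), hk]), hall v (fun w => u w = false)]
  · intro v hk
    simp only [Function.comp_apply]
    rw [h.mod (τ v) (by rw [h2 v (by simp [hk]), hk]), ← Equiv.sum_comp τ]
    simp only [h3]

/-- few gates: the output depends on few places of `z` and on the residue of the weight -/
theorem output_regular {α : Type} [Fintype α] [DecidableEq α] (C : Circuit ι) (m t L : ℕ)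
    (ht : 1 ≤ t) (hk : 2 * t ^ 2 ≤ Fintype.card α) (hk4 : 4 * t < Fintype.card α)
    (hL : ∀ l, L ∣ l → ∀ j, 1 ≤ j → j < t → m ∣ l.choose j)
    (ext : (α → Bool) → ι → Bool)
    (hext : ∀ i, (∃ j, ∀ z, ext z i = z j) ∨ (∃ b, ∀ z, ext z i = b))
    (hS : ∀ σ : Perm α, ∃ (π : Perm ι) (τ : Perm C.Gate), C.Aut π τ ∧ ∀ z, ext (z ∘ σ) = ext z ∘ π)
    (hcard : C.size < t.factorial) (f : (ι → Bool) → Bool) (hf : C.Computes m f) :
    ∃ T : Finset α, T.card < t ∧ ∀ z z' : α → Bool, mid t z → mid t z' →
      (∀ i ∈ T, z i = z' i) → wt z ≡ wt z' [MOD L] → f (ext z) = f (ext z') := by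
  choose U hU hUf using hf
  obtain ⟨T, hT, hreg⟩ := main_sys (α := α) (V := C.Gate) m t L ht hk hk4 hL
    (fun v z => U (ext z) v) C.wires C.rank C.acyclic (by
      intro σ
      obtain ⟨π, τ, hA, he⟩ := hS σ
      refine ⟨τ, fun v z => ?_, hA.2.2⟩
      have e1 := (hU (ext z)).comp hA
      rw [← he] at e1
      have e2 := e1.unique (hU (ext (z ∘ σ)))
      exact congrFun e2 v) (by
      intro v
      cases hkd : C.kind v with
      | input i =>
        rcases hext i with ⟨j, hj⟩ | ⟨b, hb⟩
        · left
          refine ⟨j, fun z => ?_⟩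
          rw [(hU (ext z)).input v i hkd, hj]
        · right; left
          refine ⟨b, fun z => ?_⟩
          rw [(hU (ext z)).input v i hkd, hb]
      | const b => right; left; exact ⟨b, fun z => (hU (ext z)).const v b hkd⟩
      | and => right; right; left; exact fun z => (hU (ext z)).and v hkd
      | or => right; right; right; left; exact fun z => (hU (ext z)).or v hkd
      | not => right; right; right; right; left; exact fun z => (hU (ext z)).not v hkd
      | mod => right; right; right; right; right; exact fun z => (hU (ext z)).mod v hkd)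
    hcard C.out
  refine ⟨T, hT, fun z z' h1 h2 h3 h4 => ?_⟩
  rw [← hUf, ← hUf]
  exact hreg z z' h1 h2 h3 h4

end Circuit

/-- divisibility of binomial coefficients -/
theorem dvd_choose (m t : ℕ) (hm : m ≠ 0) (l : ℕ)
    (hl : (m * ∏ p ∈ m.primeFactors, p ^ Nat.log p t) ∣ l) (j : ℕ) (h1 : 1 ≤ j) (h2 : j < t) :
    m ∣ l.choose j := by
  rcases Nat.eq_zero_or_pos l with rfl | hl0
  · rw [Nat.choose_eq_zero_of_lt (by omega)]; exact dvd_zero _
  by_cases hc0 : l.choose j = 0
  · rw [hc0]; exact dvd_zero _
  have hmul : l * (l - 1).choose (j - 1) = l.choose j * j := by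
    obtain ⟨l', rfl⟩ : ∃ l', l = l' + 1 := ⟨l - 1, by omega⟩
    obtain ⟨j', rfl⟩ : ∃ j', j = j' + 1 := ⟨j - 1, by omega⟩
    simpa using Nat.add_one_mul_choose_eq l' j'
  rw [← Nat.factorization_prime_le_iff_dvd hm hc0]
  intro p hp
  by_cases hpm : p ∣ m
  · have hpf : p ∈ m.primeFactors := Nat.mem_primeFactors.2 ⟨hp, hpm, hm⟩
    have h3 : p ^ (m.factorization p + Nat.log p t) ∣ l := by
      refine dvd_trans ?_ hl
      rw [pow_add]
      exact mul_dvd_mul (Nat.ordProj_dvd m p) (Finset.dvd_prod_of_mem _ hpf)
    have h4 : m.factorization p + Nat.log p t ≤ l.factorization p :=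
      (hp.pow_dvd_iff_le_factorization (by omega)).1 h3
    have h5 : l.factorization p ≤ (l.choose j).factorization p + j.factorization p := by
      have h6 : l ∣ l.choose j * j := ⟨_, hmul.symm⟩
      have h7 := (Nat.factorization_prime_le_iff_dvd (by omega)
        (Nat.mul_ne_zero hc0 (by omega))).2 h6 p hp
      rw [Nat.factorization_mul hc0 (by omega)] at h7
      simpa using h7
    have h8 : j.factorization p ≤ Nat.log p t := by
      have h9 : p ^ j.factorization p ≤ j := Nat.ordProj_le p (by omega)
      exact Nat.le_log_of_pow_le hp.one_lt (by omega)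
    omega
  · rw [Nat.factorization_eq_zero_of_not_dvd hpm]; exact Nat.zero_le _

theorem period_le (m t : ℕ) (ht : 1 ≤ t) :
    (m * ∏ p ∈ m.primeFactors, p ^ Nat.log p t) ≤ m * t ^ m.primeFactors.card := by
  apply Nat.mul_le_mul_left
  calc ∏ p ∈ m.primeFactors, p ^ Nat.log p t ≤ ∏ p ∈ m.primeFactors, t :=
        Finset.prod_le_prod' (fun p _ => Nat.pow_log_le_self p (by omega))
    _ = t ^ m.primeFactors.card := by rw [Finset.prod_const]

end Pool.Agent.TH71.SC
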