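import Pool.Agent.TH71.SC.Orb

/-! Weights, rearrangements and the counting lemma modulo `m`. -/

set_option autoImplicit false
set_option linter.unusedSectionVars false

namespace Pool.Agent.TH71.SC

open Equiv Finset

variable {α : Type*} [Fintype α] [DecidableEq α] {β : Type*}

/-- the number of ones -/
def wt (z : α → Bool) : ℕ := (univ.filter (fun i => z i = true)).card

theorem wt_comp (π : Perm α) (z : α → Bool) : wt (z ∘ π) = wt z := by
  unfold wt
  apply Finset.card_bij (fun i _ => π i)
  · intro i hi; simpa using hi
  · intro i _ j _ h; exact π.injective h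
  · intro j hj; exact ⟨π.symm j, by simpa using hj, by simp⟩

/-- `F` is symmetric outside `T` -/
def SymOut (F : (α → Bool) → β) (T : Finset α) : Prop :=
  ∀ z z' : α → Bool, (∀ i ∈ T, z i = z' i) → wt z = wt z' → F z = F z'

theorem symOut_of_ex {F : (α → Bool) → β} {T : Finset α}
    (h : ∀ i, i ∉ T → ∀ j, j ∉ T → Ex F i j) : SymOut F T := by
  have key : ∀ (n : ℕ) (z z' : α → Bool), (univ.filter (fun i => z i ≠ z' i)).card ≤ n →
      (∀ i ∈ T, z i = z' i) → wt z = wt z' → F z = F z' := by
    intro n
    induction n with
    | zero =>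
      intro z z' h1 _ _
      have h2 : univ.filter (fun i => z i ≠ z' i) = ∅ := Finset.card_eq_zero.1 (by omega)
      have : z = z' := by
        funext i
        by_contra hi
        have : i ∈ univ.filter (fun i => z i ≠ z' i) := by simp [hi]
        rw [h2] at this
        exact absurd this (Finset.notMem_empty _)
      rw [this]
    | succ n ih =>
      intro z z' h1 hT hw
      by_cases he : z = z'
      · rw [he]
      set A := univ.filter (fun i => z i = true) with hA
      set B := univ.filter (fun i => z' i = true) with hB
      have hAB : A ≠ B := by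
        intro e
        apply he
        funext i
        have := Finset.ext_iff.1 e i
        simp only [hA, hB, Finset.mem_filter, Finset.mem_univ, true_and] at this
        revert this
        cases z i <;> cases z' i <;> simp
      have hc : A.card = B.card := hw
      obtain ⟨i, hiA, hiB⟩ : ∃ i ∈ A, i ∉ B := by
        by_contra hcon
        push Not at hcon
        exact hAB (Finset.eq_of_subset_of_card_le hcon (by omega))
      obtain ⟨j, hjB, hjA⟩ : ∃ j ∈ B, j ∉ A := by
        by_contra hcon
        push Not at hcon
        exact hAB (Finset.eq_of_subset_of_card_le hcon (by omega)).symm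
      have zi : z i = true := by simpa [hA] using hiA
      have zi' : z' i = false := by simpa [hB] using hiB
      have zj : z j = false := by simpa [hA] using hjA
      have zj' : z' j = true := by simpa [hB] using hjB
      have hij : i ≠ j := by intro e; rw [e, zj] at zi; exact absurd zi (by simp)
      have hiT : i ∉ T := by
        intro hh
        have := hT i hh
        rw [zi, zi'] at this; exact absurd this (by simp)
      have hjT : j ∉ T := by
        intro hh
        have := hT j hh
        rw [zj, zj'] at this; exact absurd this (by simp)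
      rw [← h i hiT j hjT z]
      apply ih
      · have hsub : univ.filter (fun l => (z ∘ swap i j) l ≠ z' l) ⊆
            (univ.filter (fun l => z l ≠ z' l)).erase i := by
          intro l hl
          simp only [Finset.mem_filter, Finset.mem_univ, true_and, Function.comp_apply] at hl
          rw [Finset.mem_erase]
          by_cases h1 : l = i
          · subst h1; rw [swap_apply_left, zj, zi'] at hl; exact absurd rfl hl
          by_cases h2 : l = j
          · subst h2; rw [swap_apply_right, zi, zj'] at hl; exact absurd rfl hl
          rw [swap_apply_of_ne_of_ne h1 h2] at hl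
          exact ⟨h1, by simp [hl]⟩
        have hmem : i ∈ univ.filter (fun l => z l ≠ z' l) := by simp [zi, zi']
        have := Finset.card_le_card hsub
        rw [Finset.card_erase_of_mem hmem] at this
        omega
      · intro l hl
        have h1 : l ≠ i := by intro e; rw [e] at hl; exact hiT hl
        have h2 : l ≠ j := by intro e; rw [e] at hl; exact hjT hl
        rw [Function.comp_apply, swap_apply_of_ne_of_ne h1 h2]
        exact hT l hl
      · rw [wt_comp, hw]
  intro z z' h1 h2
  exact key _ z z' le_rfl h1 h2

/-- a string of given weight and given pattern on a small set -/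
theorem exists_pattern (D : Finset α) (p : α → Bool) (w : ℕ) (h1 : D.card ≤ w)
    (h2 : w + D.card ≤ Fintype.card α) : ∃ z : α → Bool, (∀ i ∈ D, z i = p i) ∧ wt z = w := by
  set A := D.filter (fun i => p i = true) with hA
  have hAc : A.card ≤ D.card := Finset.card_filter_le _ _
  have hcompl : (univ \ D).card = Fintype.card α - D.card := by
    rw [Finset.card_sdiff_of_subset (Finset.subset_univ _), Finset.card_univ]
  obtain ⟨B, hB, hBc⟩ := Finset.exists_subset_card_eq (s := univ \ D) (n := w - A.card) (by omega)
  refine ⟨fun i => decide (i ∈ A ∪ B), ?_, ?_⟩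
  · intro i hi
    have : i ∉ B := fun h => (Finset.mem_sdiff.1 (hB h)).2 hi
    cases hp : p i
    · simp [hA, this, hp]
    · simp [hA, hi, hp]
  · have hd : Disjoint A B := by
      rw [Finset.disjoint_left]
      intro i hi hiB
      exact (Finset.mem_sdiff.1 (hB hiB)).2 (Finset.mem_filter.1 hi).1
    unfold wt
    have : univ.filter (fun i => (fun i => decide (i ∈ A ∪ B)) i = true) = A ∪ B := by
      ext i; simp
    rw [this, Finset.card_union_of_disjoint hd, hBc]
    omega

/-- a string above `z` of given weight which agrees with `z` on `T` -/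
theorem exists_above (T : Finset α) (z : α → Bool) (w : ℕ) (h1 : wt z ≤ w)
    (h2 : w + T.card ≤ Fintype.card α) :
    ∃ z' : α → Bool, (∀ i, z i = true → z' i = true) ∧ (∀ i ∈ T, z i = z' i) ∧ wt z' = w := by
  set A := univ.filter (fun i => z i = true) with hA
  have hAw : A.card = wt z := rfl
  have hc : Fintype.card α - A.card - T.card ≤ (univ \ (A ∪ T)).card := by
    rw [Finset.card_sdiff_of_subset (Finset.subset_univ _), Finset.card_univ]
    have := Finset.card_union_le A T
    omega
  obtain ⟨B, hB, hBc⟩ := Finset.exists_subset_card_eq (s := univ \ (A ∪ T)) (n := w - A.card)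
    (by omega)
  have hBn : ∀ i ∈ B, i ∉ A ∧ i ∉ T := by
    intro i hi
    have := (Finset.mem_sdiff.1 (hB hi)).2
    rw [Finset.mem_union, not_or] at this
    exact this
  refine ⟨fun i => decide (i ∈ A ∪ B), ?_, ?_, ?_⟩
  · intro i hi; simp [hA, hi]
  · intro i hi
    have : i ∉ B := fun h => (hBn i h).2 hi
    cases hz : z i
    · simp [hA, this, hz]
    · simp [hA, hz]
  · have hd : Disjoint A B := by
      rw [Finset.disjoint_left]
      intro i hi hiB
      exact (hBn i hiB).1 hi
    unfold wt
    have : univ.filter (fun i => (fun i => decide (i ∈ A ∪ B)) i = true) = A ∪ B := by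
      ext i; simp
    rw [this, Finset.card_union_of_disjoint hd, hBc]
    omega

/-- the counting lemma: a symmetric sum of functions of few variables is periodic modulo `m` -/
theorem mod_claim {V : Type*} [Fintype V] (m t : ℕ) (h : (α → Bool) → ℕ) (T : Finset α)
    (hT : SymOut h T) (c : V → ℕ) (b : V → (α → Bool) → Prop) (Tw : V → Finset α)
    (hTw : ∀ w, (Tw w).card < t)
    (hb : ∀ w (z z' : α → Bool), (∀ i ∈ Tw w, z i = z' i) → (b w z ↔ b w z'))
    (hsum : ∀ z, h z = ∑ w, c w * (open Classical in if b w z then 1 else 0))
    (z z' : α → Bool) (hle : ∀ i, z i = true → z' i = true) (hTz : ∀ i ∈ T, z i = z' i)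
    (hL : ∀ j, 1 ≤ j → j < t → m ∣ (wt z' - wt z).choose j) : h z ≡ h z' [MOD m] := by
  classical
  set W := univ.filter (fun i => z i = false ∧ z' i = true) with hW
  let zD : Finset α → α → Bool := fun D i => z i || decide (i ∈ D)
  have hWT : ∀ i ∈ W, i ∉ T := by
    intro i hi hiT
    rw [hW, Finset.mem_filter] at hi
    have := hTz i hiT
    rw [hi.2.1, hi.2.2] at this
    exact absurd this (by simp)
  have hwD : ∀ D, D ⊆ W → wt (zD D) = wt z + D.card := by
    intro D hD
    unfold wt
    have e : univ.filter (fun i => zD D i = true) = univ.filter (fun i => z i = true) ∪ D := by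
      ext i; simp [zD]
    rw [e, Finset.card_union_of_disjoint]
    rw [Finset.disjoint_left]
    intro i h1 h2
    have h3 := hD h2
    rw [hW, Finset.mem_filter] at h3
    rw [Finset.mem_filter, h3.2.1] at h1
    exact absurd h1.2 (by simp)
  have hzW : zD W = z' := by
    funext i
    simp only [zD, hW, Finset.mem_filter, Finset.mem_univ, true_and]
    cases h1 : z i
    · cases h2 : z' i <;> simp
    · simp [hle i h1]
  have hz0 : zD ∅ = z := by funext i; simp [zD]
  have hwW : wt z' = wt z + W.card := by rw [← hzW]; exact hwD W (Finset.Subset.refl _)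
  have hsame : ∀ D D', D ⊆ W → D' ⊆ W → D.card = D'.card → h (zD D) = h (zD D') := by
    intro D D' hD hD' hc
    apply hT
    · intro i hi
      have h1 : i ∉ D := fun hh => hWT i (hD hh) hi
      have h2 : i ∉ D' := fun hh => hWT i (hD' hh) hi
      simp [zD, h1, h2]
    · rw [hwD D hD, hwD D' hD', hc]
  have hex : ∀ n : ℕ, ∃ D, D ⊆ W ∧ D.card = min n W.card := fun n =>
    Finset.exists_subset_card_eq (Nat.min_le_right _ _)
  choose Dn hDn hDc using hex
  let H : ℕ → ℤ := fun n => (h (zD (Dn n)) : ℤ)
  have hH : ∀ D, D ⊆ W → (h (zD D) : ℤ) = H D.card := by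
    intro D hD
    have : h (zD D) = h (zD (Dn D.card)) := by
      apply hsame D _ hD (hDn _)
      rw [hDc, Nat.min_eq_left (Finset.card_le_card hD)]
    simp only [H]
    exact_mod_cast this
  -- vanishing of high differences
  have hvan : ∀ j, t ≤ j → j ≤ W.card →
      ∑ i ∈ range (j + 1), ((-1 : ℤ) ^ (j - i) * (j.choose i : ℤ)) * H i = 0 := by
    intro j htj hjW
    obtain ⟨D0, hD0, hD0c⟩ := Finset.exists_subset_card_eq hjW
    have h1 : ∑ i ∈ range (j + 1), ((-1 : ℤ) ^ (j - i) * (j.choose i : ℤ)) * H i =
        ∑ D ∈ D0.powerset, (-1 : ℤ) ^ (j - D.card) * (h (zD D) : ℤ) := by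
      have h2 := Finset.sum_powerset_apply_card (x := D0) (fun i => (-1 : ℤ) ^ (j - i) * H i)
      rw [hD0c] at h2
      have h3 : ∑ D ∈ D0.powerset, (-1 : ℤ) ^ (j - D.card) * (h (zD D) : ℤ) =
          ∑ D ∈ D0.powerset, (-1 : ℤ) ^ (j - D.card) * H D.card := by
        apply Finset.sum_congr rfl
        intro D hD
        rw [hH D ((Finset.mem_powerset.1 hD).trans hD0)]
      rw [h3, h2]
      apply Finset.sum_congr rfl
      intro i _
      rw [nsmul_eq_mul]; ring
    rw [h1]
    have h4 : ∀ D, (h (zD D) : ℤ) = ∑ w, (c w : ℤ) * (if b w (zD D) then 1 else 0) := by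
      intro D
      rw [hsum]; push_cast
      rfl
    simp_rw [h4, Finset.mul_sum]
    rw [Finset.sum_comm]
    apply Finset.sum_eq_zero
    intro w _
    obtain ⟨d, hd, hdw⟩ : ∃ d ∈ D0, d ∉ Tw w := by
      by_contra hcon
      push Not at hcon
      have := Finset.card_le_card (show D0 ⊆ Tw w from hcon)
      have := hTw w
      omega
    have e0 : D0 = insert d (D0.erase d) := (Finset.insert_erase hd).symm
    rw [e0, Finset.sum_powerset_insert (Finset.notMem_erase _ _), ← Finset.sum_add_distrib]
    apply Finset.sum_eq_zero
    intro D hD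
    have hDsub := Finset.mem_powerset.1 hD
    have hdD : d ∉ D := fun hh => absurd (hDsub hh) (Finset.notMem_erase _ _)
    have hbb : b w (zD (insert d D)) ↔ b w (zD D) := by
      apply hb
      intro i hi
      have : i ≠ d := by intro e; rw [e] at hi; exact hdw hi
      simp [zD, this]
    rw [Finset.card_insert_of_notMem hdD]
    have hcard : D.card + 1 ≤ j := by
      have h5 := Finset.card_le_card hDsub
      rw [Finset.card_erase_of_mem hd, hD0c] at h5
      have : 0 < D0.card := Finset.card_pos.2 ⟨d, hd⟩
      omega
    have e1 : j - D.card = (j - (D.card + 1)) + 1 := by omega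
    simp only [hbb]
    rw [e1, pow_succ]
    ring
  -- Newton expansion
  have hnewton : H W.card = ∑ j ∈ range (W.card + 1), ((W.card.choose j : ℕ) : ℤ) *
      (∑ i ∈ range (j + 1), ((-1 : ℤ) ^ (j - i) * (j.choose i : ℤ)) * H i) := by
    have h1 := shift_eq_sum_fwdDiff_iter (1 : ℕ) H W.card 0
    simp only [smul_eq_mul, mul_one, zero_add] at h1
    rw [h1]
    apply Finset.sum_congr rfl
    intro j _
    rw [nsmul_eq_mul]
    congr 1
    have h2 := fwdDiff_iter_eq_sum_shift (1 : ℕ) H j 0
    simp only [smul_eq_mul, mul_one, zero_add] at h2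
    rw [h2]
  have hdiv : (m : ℤ) ∣ H W.card - H 0 := by
    rw [hnewton, Finset.sum_range_succ']
    simp only [Nat.choose_zero_right, Nat.cast_one, one_mul, zero_add, Finset.range_one,
      Finset.sum_singleton, Nat.sub_self, pow_zero, Nat.choose_self, add_sub_cancel_right]
    apply Finset.dvd_sum
    intro j hj
    rw [Finset.mem_range] at hj
    by_cases hjt : j + 1 < t
    · apply Dvd.dvd.mul_right
      have := hL (j + 1) (by omega) hjt
      rw [hwW, Nat.add_sub_cancel_left] at this
      exact_mod_cast this
    · rw [hvan (j + 1) (by omega) (by omega), mul_zero]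
      exact dvd_zero _
  have e1 : H W.card = (h z' : ℤ) := by
    rw [← hH W (Finset.Subset.refl _), hzW]
  have e2 : H 0 = (h z : ℤ) := by
    have := hH ∅ (Finset.empty_subset _)
    rw [hz0, Finset.card_empty] at this
    exact this.symm
  rw [e1, e2] at hdiv
  exact (Nat.modEq_iff_dvd).2 hdiv

end Pool.Agent.TH71.SC
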