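import Mathlib

/-! Functions of Boolean strings with few images under permutations of the coordinates are
symmetric outside a small set. -/

set_option autoImplicit false
set_option linter.unusedSectionVars false

namespace Pool.Agent.TH71.SC

open Equiv Finset

variable {α : Type*} [Fintype α] [DecidableEq α] {β : Type*}

/-- `i` and `j` may be exchanged in the arguments of `F` -/
def Ex (F : (α → Bool) → β) (i j : α) : Prop := ∀ x, F (x ∘ swap i j) = F x

/-- the invariance group of `F` -/
def Hg (F : (α → Bool) → β) : Subgroup (Perm α) where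
  carrier := {π | ∀ x, F (x ∘ π) = F x}
  mul_mem' := by
    intro a b ha hb x
    have : x ∘ (a * b : Perm α) = (x ∘ a) ∘ b := rfl
    rw [this, hb, ha]
  one_mem' := by intro x; rfl
  inv_mem' := by
    intro a ha x
    have h := ha (x ∘ (a⁻¹ : Perm α))
    have h2 : (x ∘ (a⁻¹ : Perm α)) ∘ a = x := by
      funext y; simp
    rw [h2] at h
    exact h.symm

theorem mem_Hg {F : (α → Bool) → β} {π : Perm α} : π ∈ Hg F ↔ ∀ x, F (x ∘ π) = F x := Iff.rfl

theorem ex_iff {F : (α → Bool) → β} {i j : α} : Ex F i j ↔ swap i j ∈ Hg F := Iff.rfl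

theorem Ex.refl (F : (α → Bool) → β) (i : α) : Ex F i i := by
  rw [ex_iff, swap_self]; exact (Hg F).one_mem

theorem Ex.symm {F : (α → Bool) → β} {i j : α} (h : Ex F i j) : Ex F j i := by
  rw [ex_iff, swap_comm]; exact h

theorem Ex.trans {F : (α → Bool) → β} {i j l : α} (h : Ex F i j) (h2 : Ex F j l) : Ex F i l := by
  by_cases hij : i = j
  · subst hij; exact h2
  by_cases hjl : j = l
  · subst hjl; exact h
  by_cases hil : i = l
  · subst hil; exact Ex.refl F i
  have e : swap i l = swap i j * swap j l * swap i j := by
    have := swap_mul_swap_mul_swap (x := l) (y := j) (z := i) (Ne.symm hjl) (Ne.symm hil)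
    rw [swap_comm i j, swap_comm j l, this, ]
  rw [ex_iff, e]
  exact (Hg F).mul_mem ((Hg F).mul_mem h h2) h

/-- three-cycles give transpositions -/
theorem ex_of_cycle {F : (α → Bool) → β} {a b c : α} (hab : a ≠ b) (hbc : b ≠ c) (hac : a ≠ c)
    (h : swap a b * swap c b ∈ Hg F) : Ex F a b := by
  have hi := (Hg F).inv_mem h
  intro x
  have e1 : ∀ y, (x ∘ (swap a b * swap c b : Perm α)) y =
      if y = a then x b else if y = b then x c else if y = c then x a else x y := by
    intro y
    simp only [Function.comp_apply, Perm.coe_mul]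
    by_cases h1 : y = a
    · subst h1; simp [swap_apply_of_ne_of_ne hac hab]
    by_cases h2 : y = b
    · subst h2; simp [h1, swap_apply_of_ne_of_ne hac.symm hbc.symm]
    by_cases h3 : y = c
    · subst h3; simp [h1, h2]
    simp [h1, h2, h3, swap_apply_of_ne_of_ne]
  have e2 : ∀ y, (x ∘ ((swap a b * swap c b)⁻¹ : Perm α)) y =
      if y = a then x c else if y = b then x a else if y = c then x b else x y := by
    intro y
    simp only [Function.comp_apply, Perm.coe_mul, mul_inv_rev, swap_inv]
    by_cases h1 : y = a
    · subst h1; simp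
    by_cases h2 : y = b
    · subst h2; simp [h1, swap_apply_of_ne_of_ne hac hab]
    by_cases h3 : y = c
    · subst h3; simp [h1, h2, swap_apply_of_ne_of_ne hac.symm hbc.symm]
    simp [h1, h2, h3, swap_apply_of_ne_of_ne]
  have e3 : ∀ y, (x ∘ (swap a b : Perm α)) y =
      if y = a then x b else if y = b then x a else x y := by
    intro y
    simp only [Function.comp_apply]
    by_cases h1 : y = a
    · subst h1; simp
    by_cases h2 : y = b
    · subst h2; simp [h1]
    simp [h1, h2, swap_apply_of_ne_of_ne]
  by_cases k1 : x a = x b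
  · have : x ∘ (swap a b : Perm α) = x := by
      funext y; rw [e3]; split_ifs with h1 h2
      · rw [h1, k1]
      · rw [h2, k1]
      · rfl
    rw [this]
  by_cases k2 : x a = x c
  · have : x ∘ (swap a b : Perm α) = x ∘ (swap a b * swap c b : Perm α) := by
      funext y; rw [e3, e1]
      split_ifs with h1 h2 h3
      · rfl
      · exact k2
      · rw [h3, k2]
      · rfl
    rw [this]; exact h x
  · have k3 : x b = x c := by
      revert k1 k2
      cases x a <;> cases x b <;> cases x c <;> simp
    have : x ∘ (swap a b : Perm α) = x ∘ ((swap a b * swap c b)⁻¹ : Perm α) := by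
      funext y; rw [e3, e2]
      split_ifs with h1 h2 h3
      · exact k3
      · rfl
      · rw [h3, k3]
      · rfl
    rw [this]; exact hi x

/-- two permutations whose supports meet in one point -/
theorem ex_of_meet {F : (α → Bool) → β} {g h : Perm α} {d : α} (hg : g ∈ Hg F) (hh : h ∈ Hg F)
    (hgd : g d ≠ d) (hhd : h d ≠ d) (hm : ∀ y, g y ≠ y → h y ≠ y → y = d) : Ex F d (g d) := by
  set b := g d with hb
  set c := h d with hc
  have hgb : g b ≠ b := by
    intro e; apply hgd; exact g.injective (by rw [← hb]; exact e)
  have hhc : h c ≠ c := by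
    intro e; apply hhd; exact h.injective (by rw [← hc]; exact e)
  have hhb : h b = b := by
    by_contra e; exact hgd (hm b hgb e)
  have hgc : g c = c := by
    by_contra e; exact hhd (hm c e hhc)
  have hbc : b ≠ c := by
    intro e; rw [e] at hgb; exact hgb hgc
  -- e commutes with h
  have hcomm : Commute (swap d b * g) h := by
    apply Perm.Disjoint.commute
    intro y
    by_cases hy : h y = y
    · exact Or.inr hy
    left
    by_cases hyd : y = d
    · rw [hyd]; simp [← hb]
    have hgy : g y = y := by
      by_contra e; exact hyd (hm y e hy)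
    have hyb : y ≠ b := by
      intro e; rw [e] at hy; exact hy hhb
    rw [Perm.mul_apply, hgy, swap_apply_of_ne_of_ne hyd hyb]
  have key : g * h * g⁻¹ * h⁻¹ = swap d b * swap c b := by
    have e1 : g = swap d b * (swap d b * g) := by
      rw [← mul_assoc, swap_mul_self, one_mul]
    have e2 : g * h * g⁻¹ = swap d b * h * swap d b := by
      set e := swap d b * g with he
      have : g = swap d b * e := e1
      calc g * h * g⁻¹ = swap d b * (e * h) * (swap d b * e)⁻¹ := by
            rw [this]; group
        _ = swap d b * (h * e) * (swap d b * e)⁻¹ := by rw [hcomm.eq]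
        _ = swap d b * h * (swap d b)⁻¹ := by group
        _ = swap d b * h * swap d b := by rw [swap_inv]
    rw [e2]
    have e3 : h * swap d b * h⁻¹ = swap c b := by
      rw [Equiv.mul_swap_eq_swap_mul, hhb, ← hc, mul_assoc, mul_inv_cancel, mul_one]
    calc swap d b * h * swap d b * h⁻¹ = swap d b * (h * swap d b * h⁻¹) := by group
      _ = _ := by rw [e3]
  apply ex_of_cycle (c := c) (Ne.symm hgd) hbc (Ne.symm hhd)
  rw [← key]
  exact (Hg F).mul_mem ((Hg F).mul_mem ((Hg F).mul_mem hg hh) ((Hg F).inv_mem hg))
    ((Hg F).inv_mem hh)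

/-- all images of `F` under permutations of the coordinates -/
def Orb (F : (α → Bool) → β) : Set ((α → Bool) → β) :=
  Set.range (fun π : Perm α => fun x => F (x ∘ π))

theorem Orb_finite (F : (α → Bool) → β) : (Orb F).Finite := Set.finite_range _

/-- pairwise non-exchangeable elements: many images -/
theorem bochert {F : (α → Bool) → β} (R : Finset α)
    (hR : ∀ i ∈ R, ∀ j ∈ R, i ≠ j → ¬ Ex F i j) {t : ℕ} (ht : 2 * t ≤ R.card) :
    t.factorial ≤ (Orb F).ncard := by
  classical
  -- the property of fixing sets
  let Pr : Finset α → Prop := fun D => D ⊆ R ∧ ∀ g ∈ Hg F, (∀ y ∉ R, g y = y) →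
    (∀ y ∈ D, g y = y) → g = 1
  have hPR : Pr R := by
    refine ⟨Finset.Subset.refl R, fun g _ h1 h2 => ?_⟩
    ext y
    by_cases hy : y ∈ R
    · simp [h2 y hy]
    · simp [h1 y hy]
  obtain ⟨D, hD, hmin⟩ : ∃ D, Pr D ∧ ∀ D', Pr D' → D.card ≤ D'.card := by
    have hne : ((Finset.univ : Finset (Finset α)).filter Pr).Nonempty := ⟨R, by simp [hPR]⟩
    obtain ⟨D, hD, hm⟩ := Finset.exists_min_image _ (fun D : Finset α => D.card) hne
    refine ⟨D, (Finset.mem_filter.1 hD).2, fun D' hD' => hm D' (by simp [hD'])⟩
  have hhalf : 2 * D.card ≤ R.card := by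
    by_contra hlt
    push Not at hlt
    have hc : (R \ D).card < D.card := by
      rw [Finset.card_sdiff_of_subset hD.1]; omega
    have h1 : ¬ Pr (R \ D) := fun h => absurd (hmin _ h) (by omega)
    have h1' : ∃ h ∈ Hg F, (∀ y ∉ R, h y = y) ∧ (∀ y ∈ R \ D, h y = y) ∧ h ≠ 1 := by
      by_contra hcon
      apply h1
      refine ⟨Finset.sdiff_subset, fun g hg h2 h3 => ?_⟩
      by_contra hne
      exact hcon ⟨g, hg, h2, h3, hne⟩
    obtain ⟨h, hh, hhR, hhD, hh1⟩ := h1'
    obtain ⟨d, hd⟩ : ∃ d, h d ≠ d := by
      by_contra hcon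
      push Not at hcon
      apply hh1
      ext y; simp [hcon y]
    have hdD : d ∈ D := by
      by_contra hdD
      apply hd
      by_cases hdR : d ∈ R
      · exact hhD d (by simp [hdR, hdD])
      · exact hhR d hdR
    have h2 : ¬ Pr (D.erase d) := fun h => by
      have := hmin _ h
      rw [Finset.card_erase_of_mem hdD] at this
      have : 0 < D.card := Finset.card_pos.2 ⟨d, hdD⟩
      omega
    have h2' : ∃ g ∈ Hg F, (∀ y ∉ R, g y = y) ∧ (∀ y ∈ D.erase d, g y = y) ∧ g ≠ 1 := by
      by_contra hcon
      apply h2
      refine ⟨(Finset.erase_subset _ _).trans hD.1, fun g hg h2 h3 => ?_⟩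
      by_contra hne
      exact hcon ⟨g, hg, h2, h3, hne⟩
    obtain ⟨g, hg, hgR, hgD, hg1⟩ := h2'
    have hgd : g d ≠ d := by
      intro e
      apply hg1
      apply hD.2 g hg hgR
      intro y hy
      by_cases hyd : y = d
      · rw [hyd, e]
      · exact hgD y (by simp [hyd, hy])
    have hex := ex_of_meet hg hh hgd hd (fun y hy1 hy2 => by
      by_contra hyd
      apply hy1
      by_cases hyD : y ∈ D
      · exact hgD y (by simp [hyd, hyD])
      · exfalso; apply hy2
        by_cases hyR : y ∈ R
        · exact hhD y (by simp [hyR, hyD])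
        · exact hhR y hyR)
    have hgdR : g d ∈ R := by
      by_contra hcon
      have := hgR _ hcon
      exact hgd (g.injective this)
    exact hR d (hD.1 hdD) _ hgdR (Ne.symm hgd) hex
  -- permutations of R \ D give distinct images
  let U : Finset α := R \ D
  have hU : t ≤ U.card := by
    have : U.card = R.card - D.card := Finset.card_sdiff_of_subset hD.1
    omega
  let f : Perm {a // a ∈ U} → ((α → Bool) → β) := fun π x => F (x ∘ (Perm.ofSubtype π : Perm α))
  have hf : Function.Injective f := by
    intro π σ he
    have h1 : ((Perm.ofSubtype σ : Perm α)⁻¹ * Perm.ofSubtype π) ∈ Hg F := by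
      intro x
      have h2 := congrFun he (x ∘ ((Perm.ofSubtype σ : Perm α)⁻¹ : Perm α))
      simp only [f] at h2
      have h3 : (x ∘ ((Perm.ofSubtype σ : Perm α)⁻¹ : Perm α)) ∘ (Perm.ofSubtype σ : Perm α) = x := by
        funext y; simp
      rw [h3] at h2
      exact h2
    have h2 : ∀ y ∉ U, ((Perm.ofSubtype σ : Perm α)⁻¹ * Perm.ofSubtype π) y = y := by
      intro y hy
      rw [Perm.mul_apply, Perm.ofSubtype_apply_of_not_mem π hy, Perm.inv_eq_iff_eq,
        Perm.ofSubtype_apply_of_not_mem σ hy]
    have h3 : ((Perm.ofSubtype σ : Perm α)⁻¹ * Perm.ofSubtype π) = 1 := by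
      apply hD.2 _ h1
      · intro y hy
        exact h2 y (fun h => hy (Finset.mem_sdiff.1 h).1)
      · intro y hy
        exact h2 y (fun h => (Finset.mem_sdiff.1 h).2 hy)
    have h4 : (Perm.ofSubtype π : Perm α) = Perm.ofSubtype σ := by
      have := congrArg (fun g => (Perm.ofSubtype σ : Perm α) * g) h3
      simpa using this
    exact Perm.ofSubtype_injective h4
  calc t.factorial ≤ U.card.factorial := Nat.factorial_le hU
    _ = (Set.range f).ncard := by
        rw [← Set.image_univ, Set.ncard_image_of_injective _ hf, Set.ncard_univ,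
          Nat.card_eq_fintype_card, Fintype.card_perm, Fintype.card_coe]
    _ ≤ (Orb F).ncard := by
        apply Set.ncard_le_ncard _ (Orb_finite F)
        rintro _ ⟨π, rfl⟩
        exact ⟨Perm.ofSubtype π, rfl⟩

/-- the class of `i` -/
noncomputable def cls (F : (α → Bool) → β) (i : α) : Finset α := by
  classical exact Finset.univ.filter (fun j => Ex F i j)

theorem mem_cls {F : (α → Bool) → β} {i j : α} : j ∈ cls F i ↔ Ex F i j := by
  classical simp [cls]

/-- elements whose class is not more than half of everything -/
noncomputable def Tst (F : (α → Bool) → β) : Finset α := by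
  classical exact Finset.univ.filter (fun i => ¬ (Fintype.card α < 2 * (cls F i).card))

theorem mem_Tst {F : (α → Bool) → β} {i : α} :
    i ∈ Tst F ↔ ¬ (Fintype.card α < 2 * (cls F i).card) := by
  classical simp [Tst]

theorem ex_comp {F : (α → Bool) → β} (π : Perm α) {i j : α} :
    Ex (fun x => F (x ∘ π)) (π i) (π j) ↔ Ex F i j := by
  have key : ∀ x : α → Bool, (x ∘ swap (π i) (π j)) ∘ π = (x ∘ π) ∘ swap i j := by
    intro x
    funext y
    have := congrArg (fun g : Perm α => g y) (Equiv.mul_swap_eq_swap_mul π i j)
    simp only [Perm.mul_apply] at this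
    simp only [Function.comp_apply]
    rw [this]
  constructor
  · intro h x
    have := h (x ∘ (π⁻¹ : Perm α))
    simp only [key] at this
    have e : (x ∘ (π⁻¹ : Perm α)) ∘ π = x := by funext y; simp
    rw [e] at this
    exact this
  · intro h x
    simp only [key]
    exact h _

theorem cls_comp {F : (α → Bool) → β} (π : Perm α) (i : α) :
    cls (fun x => F (x ∘ π)) (π i) = (cls F i).map π.toEmbedding := by
  ext j
  rw [mem_cls, Finset.mem_map_equiv, mem_cls]
  have := ex_comp (F := F) π (i := i) (j := π.symm j)
  rw [Equiv.apply_symm_apply] at this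
  exact this

theorem Tst_comp {F : (α → Bool) → β} (π : Perm α) :
    Tst (fun x => F (x ∘ π)) = (Tst F).map π.toEmbedding := by
  ext j
  rw [mem_Tst, Finset.mem_map_equiv, mem_Tst]
  have := cls_comp (F := F) π (π.symm j)
  rw [Equiv.apply_symm_apply] at this
  rw [this, Finset.card_map]

theorem fact_le (t : ℕ) (ht : 1 ≤ t) : t.factorial ≤ t ^ (t - 1) := by
  induction t, ht using Nat.le_induction with
  | base => simp
  | succ t ht ih =>
    rw [Nat.factorial_succ, Nat.add_sub_cancel]
    calc (t + 1) * t.factorial ≤ (t + 1) * t ^ (t - 1) := Nat.mul_le_mul_left _ ih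
      _ ≤ (t + 1) * (t + 1) ^ (t - 1) := Nat.mul_le_mul_left _ (Nat.pow_le_pow_left (by omega) _)
      _ = (t + 1) ^ t := by
          rw [← pow_succ']; congr 1; omega

theorem choose_big (k t : ℕ) (ht : 1 ≤ t) (hk : 2 * t ^ 2 ≤ k) :
    k * t.factorial ≤ k.choose t := by
  have h1 : k.descFactorial t = t.factorial * k.choose t := Nat.descFactorial_eq_factorial_mul_choose k t
  have hkt : t ≤ k := by nlinarith
  obtain ⟨s, rfl⟩ : ∃ s, t = s + 1 := ⟨t - 1, by omega⟩
  obtain ⟨n, rfl⟩ : ∃ n, k = n + 1 := ⟨k - 1, by omega⟩
  have h2 : (n + 1).descFactorial (s + 1) = (n + 1) * n.descFactorial s := Nat.succ_descFactorial_succ n s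
  have h3 : (n + 1 - s) ^ s ≤ n.descFactorial s := Nat.pow_sub_le_descFactorial n s
  have h4 : (s + 1) ^ 2 ≤ n + 1 - s := by
    have : (s+1)^2 + s ≤ n + 1 := by nlinarith
    omega
  have h5 : (s + 1).factorial ≤ (s + 1) ^ s := by
    have := fact_le (s + 1) (by omega)
    simpa using this
  have h6 : (s + 1).factorial * (s + 1).factorial ≤ n.descFactorial s := by
    calc (s + 1).factorial * (s + 1).factorial ≤ (s + 1) ^ s * (s + 1) ^ s := Nat.mul_le_mul h5 h5
      _ = ((s + 1) ^ 2) ^ s := by rw [← mul_pow, ← sq]
      _ ≤ (n + 1 - s) ^ s := Nat.pow_le_pow_left h4 _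
      _ ≤ _ := h3
  have h7 : (s + 1).factorial * ((n + 1) * (s + 1).factorial) ≤
      (s + 1).factorial * (n + 1).choose (s + 1) := by
    rw [← h1, h2]
    calc (s + 1).factorial * ((n + 1) * (s + 1).factorial)
        = (n + 1) * ((s + 1).factorial * (s + 1).factorial) := by ring
      _ ≤ (n + 1) * n.descFactorial s := Nat.mul_le_mul_left _ h6
  exact Nat.le_of_mul_le_mul_left h7 (Nat.factorial_pos _)

theorem choose_mono_half (k t c : ℕ) (h : t ≤ c) (hc : 2 * c ≤ k) : k.choose t ≤ k.choose c := by
  induction c, h using Nat.le_induction with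
  | base => exact le_rfl
  | succ c hc' ih =>
    exact (ih (by omega)).trans (Nat.choose_le_succ_of_lt_half_left (by omega))

/-- few images: symmetric outside a small set -/
theorem almost {F : (α → Bool) → β} {t : ℕ} (ht : 1 ≤ t) (hk : 2 * t ^ 2 ≤ Fintype.card α)
    (hF : (Orb F).ncard < t.factorial) :
    (Tst F).card < t ∧ ∀ i, i ∉ Tst F → ∀ j, j ∉ Tst F → Ex F i j := by
  classical
  set k := Fintype.card α with hkdef
  -- a maximal set of representatives
  let Pr : Finset α → Prop := fun R => ∀ i ∈ R, ∀ j ∈ R, i ≠ j → ¬ Ex F i j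
  obtain ⟨R, hR, hmax⟩ : ∃ R, Pr R ∧ ∀ R', Pr R' → R'.card ≤ R.card := by
    have hne : ((Finset.univ : Finset (Finset α)).filter Pr).Nonempty := ⟨∅, by simp [Pr]⟩
    obtain ⟨D, hD, hm⟩ := Finset.exists_max_image _ (fun D : Finset α => D.card) hne
    refine ⟨D, (Finset.mem_filter.1 hD).2, fun D' hD' => hm D' (by simp [hD'])⟩
  have hRc : R.card < 2 * t := by
    by_contra h
    push Not at h
    exact absurd (bochert R hR h) (by omega)
  have hcov : ∀ i, ∃ r ∈ R, Ex F r i := by
    intro i
    by_contra hcon
    push Not at hcon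
    have hi : i ∉ R := fun h => hcon i h (Ex.refl F i)
    have : Pr (insert i R) := by
      intro a ha b hb hab
      rw [Finset.mem_insert] at ha hb
      rcases ha with rfl | ha <;> rcases hb with rfl | hb
      · exact absurd rfl hab
      · exact fun h => hcon b hb h.symm
      · exact fun h => hcon a ha h
      · exact hR a ha b hb hab
    have := hmax _ this
    rw [Finset.card_insert_of_notMem hi] at this
    omega
  -- a class with at least t elements
  obtain ⟨r, hr⟩ : ∃ r, t ≤ (cls F r).card := by
    by_contra hcon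
    push Not at hcon
    have h1 : k ≤ ∑ r ∈ R, (cls F r).card := by
      rw [hkdef, ← Finset.card_univ]
      calc (Finset.univ : Finset α).card ≤ (R.biUnion (cls F)).card := by
            apply Finset.card_le_card
            intro i _
            obtain ⟨r, hr, h⟩ := hcov i
            exact Finset.mem_biUnion.2 ⟨r, hr, mem_cls.2 h⟩
        _ ≤ _ := Finset.card_biUnion_le
    have h2 : ∑ r ∈ R, (cls F r).card ≤ R.card * t := by
      rw [← smul_eq_mul]
      exact Finset.sum_le_card_nsmul _ _ _ (fun r _ => (hcon r).le)
    have h3 : R.card * t < 2 * t * t := Nat.mul_lt_mul_of_pos_right hRc (by omega)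
    nlinarith
  set c := (cls F r).card with hc
  -- its complement is small
  have hbig : k < c + t := by
    by_contra hcon
    push Not at hcon
    have h1 : k.choose t ≤ k.choose c := by
      rcases Nat.lt_or_ge (2 * c) k with h | h
      · exact choose_mono_half _ _ _ hr (by omega)
      · have e : k.choose c = k.choose (k - c) := (Nat.choose_symm (by omega)).symm
        rw [e]
        exact choose_mono_half _ _ _ (by omega) (by omega)
    have h2 : k.choose c ≤ (Orb F).ncard * k := by
      -- choose permutations
      have h3 : ∀ D ∈ Finset.powersetCard c (Finset.univ : Finset α), ∃ π : Perm α,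
          (cls F r).map π.toEmbedding = D := by
        intro D hD
        rw [Finset.mem_powersetCard] at hD
        have e : {x // x ∈ cls F r} ≃ {x // x ∈ D} := by
          apply Fintype.equivOfCardEq
          rw [Fintype.card_coe, Fintype.card_coe, hD.2]
        refine ⟨e.extendSubtype, ?_⟩
        apply Finset.eq_of_subset_of_card_le
        · intro x hx
          rw [Finset.mem_map] at hx
          obtain ⟨y, hy, rfl⟩ := hx
          exact e.extendSubtype_mem y hy
        · rw [Finset.card_map, hD.2]
      choose! π hπ using h3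
      let G : Finset α → ((α → Bool) → β) × α := fun D => (fun x => F (x ∘ π D), π D r)
      have hG : Set.InjOn G (Finset.powersetCard c (Finset.univ : Finset α)) := by
        intro D hD D' hD' he
        have e1 : (fun x => F (x ∘ π D)) = (fun x => F (x ∘ π D')) := congrArg Prod.fst he
        have e2 : π D r = π D' r := congrArg Prod.snd he
        rw [← hπ D hD, ← hπ D' hD', ← cls_comp, ← cls_comp, e1, e2]
      have h4 : ((Finset.powersetCard c (Finset.univ : Finset α) : Set (Finset α))).ncard ≤
          ((Orb F) ×ˢ (Set.univ : Set α)).ncard := by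
        rw [← hG.ncard_image]
        apply Set.ncard_le_ncard
        · rintro _ ⟨D, _, rfl⟩
          exact ⟨⟨π D, rfl⟩, Set.mem_univ _⟩
        · exact (Orb_finite F).prod Set.finite_univ
      rw [Set.ncard_coe_finset, Finset.card_powersetCard, Finset.card_univ, Set.ncard_prod,
        Set.ncard_univ, Nat.card_eq_fintype_card] at h4
      exact h4
    have h5 := choose_big k t ht hk
    have hkpos : 0 < k := by nlinarith
    have h6 : (Orb F).ncard * k < k * t.factorial := by
      rw [mul_comm]; exact Nat.mul_lt_mul_of_pos_left hF hkpos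
    omega
  have hkt : 2 * t ≤ k := by nlinarith
  have hin : ∀ i, i ∉ Tst F ↔ i ∈ cls F r := by
    intro i
    rw [mem_Tst, not_not]
    constructor
    · intro h
      by_contra hi
      have hdis : Disjoint (cls F i) (cls F r) := by
        rw [Finset.disjoint_left]
        intro j h1 h2
        rw [mem_cls] at h1 h2
        exact hi (mem_cls.2 (h2.trans h1.symm))
      have := Finset.card_union_of_disjoint hdis
      have h2 : (cls F i ∪ cls F r).card ≤ k := by
        rw [hkdef, ← Finset.card_univ]; exact Finset.card_le_card (Finset.subset_univ _)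
      omega
    · intro h
      have e : cls F i = cls F r := by
        ext j
        rw [mem_cls, mem_cls]
        rw [mem_cls] at h
        exact ⟨fun h2 => h.trans h2, fun h2 => h.symm.trans h2⟩
      rw [e]
      omega
  constructor
  · have e : Tst F = Finset.univ \ cls F r := by
      ext i
      have := hin i
      simp only [Finset.mem_sdiff, Finset.mem_univ, true_and]
      tauto
    rw [e, Finset.card_sdiff_of_subset (Finset.subset_univ _), Finset.card_univ]
    omega
  · intro i hi j hj
    rw [hin, mem_cls] at hi hj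
    exact hi.symm.trans hj

end Pool.Agent.TH71.SC
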