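import Pool.Agent.TH71.SC.Core

/-! Symmetric systems of gates. -/

set_option autoImplicit false
set_option linter.unusedSectionVars false

namespace Pool.Agent.TH71.SC

open Equiv Finset

variable {α : Type*} [Fintype α] [DecidableEq α] {V : Type*} [Fintype V]

/-- neither almost all zeros nor almost all ones -/
def mid (t : ℕ) (z : α → Bool) : Prop := 2 * t ≤ wt z ∧ wt z + 2 * t ≤ Fintype.card α

/-- the value of `g` in the middle range predicted from the values on `T` and the residue -/
def Phi (t L : ℕ) (T : Finset α) (g : (α → Bool) → Bool) (z : α → Bool) (ρ : ℕ) : Prop :=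
  ∃ z' : α → Bool, (∀ i ∈ T, z' i = z i) ∧ wt z' ≡ ρ [MOD L] ∧ mid t z' ∧ g z' = true

theorem Phi_congr {t L : ℕ} {T : Finset α} {g : (α → Bool) → Bool} {z z' : α → Bool} {ρ : ℕ}
    (h : ∀ i ∈ T, z i = z' i) : Phi t L T g z ρ ↔ Phi t L T g z' ρ := by
  unfold Phi
  constructor
  · rintro ⟨y, h1, h2⟩; exact ⟨y, fun i hi => (h1 i hi).trans (h i hi), h2⟩
  · rintro ⟨y, h1, h2⟩; exact ⟨y, fun i hi => (h1 i hi).trans (h i hi).symm, h2⟩

theorem mid_comp {t : ℕ} {z : α → Bool} (π : Perm α) : mid t (z ∘ π) ↔ mid t z := by
  unfold mid; rw [wt_comp]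

theorem Phi_comp {t L : ℕ} {T : Finset α} {g g' : (α → Bool) → Bool} (π : Perm α)
    (hg : ∀ z, g' z = g (z ∘ π)) (z : α → Bool) (ρ : ℕ) :
    Phi t L (T.map π.toEmbedding) g' z ρ ↔ Phi t L T g (z ∘ π) ρ := by
  constructor
  · rintro ⟨y, h1, h2, h3, h4⟩
    refine ⟨y ∘ π, fun i hi => ?_, by rwa [wt_comp], (mid_comp π).2 h3, by rw [← hg]; exact h4⟩
    exact h1 (π i) (by simpa using hi)
  · rintro ⟨y, h1, h2, h3, h4⟩
    have e : (y ∘ (π⁻¹ : Perm α)) ∘ π = y := by funext i; simp
    refine ⟨y ∘ (π⁻¹ : Perm α), fun i hi => ?_, by rwa [wt_comp], (mid_comp _).2 h3, by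
      rw [hg, e]; exact h4⟩
    rw [Finset.mem_map_equiv] at hi
    have := h1 _ hi
    simpa using this

section

variable (t L : ℕ) (g : V → (α → Bool) → Bool) (wires : V → V → ℕ)

/-- the predicted number of true wires -/
noncomputable def PP (T : V → Finset α) (v : V) (z : α → Bool) (ρ : ℕ) : ℕ :=
  ∑ w, wires v w * (open Classical in if Phi t L (T w) (g w) z ρ then 1 else 0)

/-- value and predictions -/
noncomputable def FF (T : V → Finset α) (v : V) (z : α → Bool) : Bool × (ℕ → ℕ) :=
  (g v z, fun ρ => PP t L g wires T v z ρ)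

/-- the supports, level by level -/
noncomputable def Tn : ℕ → V → Finset α
  | 0, _ => ∅
  | r + 1, v => Tst (FF t L g wires (Tn r) v)

variable {t L g wires}

theorem FF_comp {T : V → Finset α} {π : Perm α} {τ : Perm V} (hτ : ∀ v z, g (τ v) z = g v (z ∘ π))
    (hw : ∀ v w, wires (τ v) (τ w) = wires v w) (hT : ∀ w, T (τ w) = (T w).map π.toEmbedding)
    (v : V) (z : α → Bool) : FF t L g wires T (τ v) z = FF t L g wires T v (z ∘ π) := by
  unfold FF
  rw [Prod.mk.injEq]
  refine ⟨hτ v z, ?_⟩
  funext ρ
  unfold PP
  rw [← Equiv.sum_comp τ]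
  apply Finset.sum_congr rfl
  intro w _
  rw [hw, hT]
  have := Phi_comp (t := t) (L := L) (T := T w) π (hτ w) z ρ
  congr 1
  by_cases h : Phi t L (T w) (g w) (z ∘ π) ρ
  · rw [if_pos h, if_pos (this.2 h)]
  · rw [if_neg h, if_neg (fun h' => h (this.1 h'))]

theorem Tn_comp {π : Perm α} {τ : Perm V} (hτ : ∀ v z, g (τ v) z = g v (z ∘ π))
    (hw : ∀ v w, wires (τ v) (τ w) = wires v w) (r : ℕ) :
    ∀ v, Tn t L g wires r (τ v) = (Tn t L g wires r v).map π.toEmbedding := by
  induction r with
  | zero => intro v; simp [Tn]
  | succ r ih =>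
    intro v
    have h1 : FF t L g wires (Tn t L g wires r) (τ v) =
        fun z => FF t L g wires (Tn t L g wires r) v (z ∘ π) := by
      funext z; exact FF_comp hτ hw ih v z
    change Tst (FF t L g wires (Tn t L g wires r) (τ v)) =
      (Tst (FF t L g wires (Tn t L g wires r) v)).map π.toEmbedding
    rw [h1]
    exact Tst_comp π

end

/-- the main induction -/
theorem main_sys (m t L : ℕ) (ht : 1 ≤ t) (hk : 2 * t ^ 2 ≤ Fintype.card α)
    (hk4 : 4 * t < Fintype.card α)
    (hL : ∀ l, L ∣ l → ∀ j, 1 ≤ j → j < t → m ∣ l.choose j)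
    (g : V → (α → Bool) → Bool) (wires : V → V → ℕ) (rank : V → ℕ)
    (hac : ∀ v w, 0 < wires v w → rank w < rank v)
    (hsym : ∀ π : Perm α, ∃ τ : Perm V, (∀ v z, g (τ v) z = g v (z ∘ π)) ∧
      ∀ v w, wires (τ v) (τ w) = wires v w)
    (hrule : ∀ v, (∃ i, ∀ z, g v z = z i) ∨ (∃ b, ∀ z, g v z = b) ∨
      (∀ z, g v z = true ↔ ∀ w, 0 < wires v w → g w z = true) ∨
      (∀ z, g v z = true ↔ ∃ w, 0 < wires v w ∧ g w z = true) ∨
      (∀ z, g v z = true ↔ ∀ w, 0 < wires v w → g w z = false) ∨
      (∀ z, g v z = true ↔ ¬ m ∣ ∑ w, wires v w * (g w z).toNat))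
    (hcard : Fintype.card V < t.factorial) (v : V) :
    ∃ T : Finset α, T.card < t ∧ ∀ z z' : α → Bool, mid t z → mid t z' → (∀ i ∈ T, z i = z' i) →
      wt z ≡ wt z' [MOD L] → g v z = g v z' := by
  classical
  -- the supports are small
  have hsupp : ∀ r v, (Tn t L g wires (r + 1) v).card < t ∧
      SymOut (FF t L g wires (Tn t L g wires r) v) (Tn t L g wires (r + 1) v) := by
    intro r v
    have horb : (Orb (FF t L g wires (Tn t L g wires r) v)).ncard < t.factorial := by
      apply lt_of_le_of_lt _ hcard
      have hsub : Orb (FF t L g wires (Tn t L g wires r) v) ⊆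
          Set.range (fun w => FF t L g wires (Tn t L g wires r) w) := by
        rintro _ ⟨π, rfl⟩
        obtain ⟨τ, h1, h2⟩ := hsym π
        refine ⟨τ v, ?_⟩
        funext z
        exact FF_comp h1 h2 (Tn_comp h1 h2 r) v z
      calc _ ≤ (Set.range (fun w => FF t L g wires (Tn t L g wires r) w)).ncard :=
            Set.ncard_le_ncard hsub (Set.finite_range _)
        _ ≤ Fintype.card V := by
            rw [← Set.image_univ, ← Nat.card_eq_fintype_card, ← Set.ncard_univ]
            exact Set.ncard_image_le Set.finite_univ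
    obtain ⟨h1, h2⟩ := almost ht hk horb
    exact ⟨h1, symOut_of_ex h2⟩
  have hsmall : ∀ r v, (Tn t L g wires r v).card < t := by
    intro r v
    cases r with
    | zero => simp [Tn]; omega
    | succ r => exact (hsupp r v).1
  -- regularity
  have hreg : ∀ r v, rank v < r → ∀ z z' : α → Bool, mid t z → mid t z' →
      (∀ i ∈ Tn t L g wires r v, z i = z' i) → wt z ≡ wt z' [MOD L] → g v z = g v z' := by
    intro r
    induction r with
    | zero => intro v h; exact absurd h (by omega)
    | succ r ih =>
      intro v hv z z' hz hz' hT hmod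
      set T := Tn t L g wires (r + 1) v with hTdef
      obtain ⟨hTc, hTs⟩ := hsupp r v
      rw [← hTdef] at hTc hTs
      have hPs : ∀ ρ, SymOut (fun z => PP t L g wires (Tn t L g wires r) v z ρ) T := by
        intro ρ y y' h1 h2
        have := hTs y y' h1 h2
        exact congrFun (congrArg Prod.snd this) ρ
      have hgs : SymOut (g v) T := by
        intro y y' h1 h2
        exact congrArg Prod.fst (hTs y y' h1 h2)
      -- predictions are right for the children
      have hch : ∀ w, 0 < wires v w → ∀ y : α → Bool, mid t y → ∀ ρ, wt y ≡ ρ [MOD L] →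
          (Phi t L (Tn t L g wires r w) (g w) y ρ ↔ g w y = true) := by
        intro w hw y hy ρ hρ
        have hrw : rank w < r := by have := hac v w hw; omega
        constructor
        · rintro ⟨y', h1, h2, h3, h4⟩
          rw [← h4]
          exact ih w hrw y y' hy h3 (fun i hi => (h1 i hi).symm) (hρ.trans h2.symm)
        · intro h
          exact ⟨y, fun i _ => rfl, hρ, hy, h⟩
      -- rearrangement
      have hre : ∀ w, ∀ y y' : α → Bool, mid t y → (∀ i ∈ T, y i = y' i) →
          ∃ y'' : α → Bool, (∀ i ∈ T, y i = y'' i) ∧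
          (∀ i ∈ Tn t L g wires r w, y' i = y'' i) ∧ wt y'' = wt y := by
        intro w y y' hy hyy
        have hc := Finset.card_union_le T (Tn t L g wires r w)
        have h2 := hsmall r w
        unfold mid at hy
        obtain ⟨y'', h3, h4⟩ := exists_pattern (T ∪ Tn t L g wires r w) y' (wt y)
          (by omega) (by omega)
        refine ⟨y'', fun i hi => ?_, fun i hi => ?_, h4⟩
        · rw [h3 i (Finset.mem_union_left _ hi), hyy i hi]
        · rw [h3 i (Finset.mem_union_right _ hi)]
      -- zero counts
      have hzero : ∀ y y' : α → Bool, mid t y → (∀ i ∈ T, y i = y' i) → ∀ ρ, ∀ w, 0 < wires v w →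
          Phi t L (Tn t L g wires r w) (g w) y' ρ →
          ∃ w', 0 < wires v w' ∧ Phi t L (Tn t L g wires r w') (g w') y ρ := by
        intro y y' hy hyy ρ w hw hP
        obtain ⟨y'', h1, h2, h3⟩ := hre w y y' hy hyy
        have h4 : Phi t L (Tn t L g wires r w) (g w) y'' ρ := (Phi_congr h2).1 hP
        have h5 : 0 < PP t L g wires (Tn t L g wires r) v y'' ρ := by
          unfold PP
          apply Finset.sum_pos'
          · intro i _; exact Nat.zero_le _
          · exact ⟨w, Finset.mem_univ _, by rw [if_pos h4]; omega⟩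
        have h6 : PP t L g wires (Tn t L g wires r) v y ρ =
            PP t L g wires (Tn t L g wires r) v y'' ρ := hPs ρ y y'' h1 h3.symm
        rw [← h6] at h5
        unfold PP at h5
        obtain ⟨w', _, h7⟩ := Finset.exists_ne_zero_of_sum_ne_zero (by omega :
          ∑ w, wires v w * (if Phi t L (Tn t L g wires r w) (g w) y ρ then 1 else 0) ≠ 0)
        refine ⟨w', ?_, ?_⟩
        · by_contra h8; apply h7; rw [Nat.eq_zero_of_not_pos h8, zero_mul]
        · by_contra h8; apply h7; rw [if_neg h8, mul_zero]
      have hfull : ∀ y y' : α → Bool, mid t y → (∀ i ∈ T, y i = y' i) → ∀ ρ, ∀ w, 0 < wires v w →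
          ¬ Phi t L (Tn t L g wires r w) (g w) y' ρ →
          ∃ w', 0 < wires v w' ∧ ¬ Phi t L (Tn t L g wires r w') (g w') y ρ := by
        intro y y' hy hyy ρ w hw hP
        obtain ⟨y'', h1, h2, h3⟩ := hre w y y' hy hyy
        have h4 : ¬ Phi t L (Tn t L g wires r w) (g w) y'' ρ := fun h => hP ((Phi_congr h2).2 h)
        have h6 : PP t L g wires (Tn t L g wires r) v y ρ =
            PP t L g wires (Tn t L g wires r) v y'' ρ := hPs ρ y y'' h1 h3.symm
        by_contra hcon
        push Not at hcon
        have h7 : PP t L g wires (Tn t L g wires r) v y ρ = ∑ w, wires v w := by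
          unfold PP
          apply Finset.sum_congr rfl
          intro w' _
          by_cases h8 : 0 < wires v w'
          · rw [if_pos (hcon w' h8), mul_one]
          · rw [Nat.eq_zero_of_not_pos h8, zero_mul]
        have h8 : PP t L g wires (Tn t L g wires r) v y'' ρ < ∑ w, wires v w := by
          unfold PP
          apply Finset.sum_lt_sum
          · intro i _
            split_ifs <;> omega
          · exact ⟨w, Finset.mem_univ _, by rw [if_neg h4]; omega⟩
        omega
      rcases hrule v with ⟨i, hi⟩ | ⟨b, hb⟩ | hr | hr | hr | hr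
      · -- input
        have hiT : i ∈ T := by
          by_contra hiT
          obtain ⟨j, hj⟩ : ∃ j, j ∉ insert i T := by
            by_contra hcon
            push Not at hcon
            have h1 : Fintype.card α ≤ (insert i T).card := by
              rw [← Finset.card_univ]
              exact Finset.card_le_card (fun x _ => hcon x)
            have := Finset.card_insert_le i T
            omega
          rw [Finset.mem_insert, not_or] at hj
          have h1 := hgs (fun l => decide (l = i)) (fun l => decide (l = j)) (by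
            intro l hl
            have h2 : l ≠ i := by intro e; rw [e] at hl; exact hiT hl
            have h3 : l ≠ j := by intro e; rw [e] at hl; exact hj.2 hl
            simp [h2, h3]) (by
            unfold wt; simp [Finset.filter_eq'])
          rw [hi, hi] at h1
          simp [Ne.symm hj.1] at h1
        rw [hi, hi]; exact hT i hiT
      · rw [hb, hb]
      · -- and
        rw [Bool.eq_iff_iff, hr, hr]
        have key : ∀ y y' : α → Bool, mid t y → mid t y' → (∀ i ∈ T, y i = y' i) → wt y ≡ wt y' [MOD L] →
            (∀ w, 0 < wires v w → g w y = true) → (∀ w, 0 < wires v w → g w y' = true) := by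
          intro y y' hy hy' hyy hm hall w hw
          by_contra hcon
          have h1 : ¬ Phi t L (Tn t L g wires r w) (g w) y' (wt y) :=
            fun h => hcon ((hch w hw y' hy' (wt y) hm.symm).1 h)
          obtain ⟨w', h2, h3⟩ := hfull y y' hy hyy (wt y) w hw h1
          exact h3 ((hch w' h2 y hy (wt y) rfl).2 (hall w' h2))
        exact ⟨key z z' hz hz' hT hmod, key z' z hz' hz (fun i hi => (hT i hi).symm) hmod.symm⟩
      · -- or
        rw [Bool.eq_iff_iff, hr, hr]
        have key : ∀ y y' : α → Bool, mid t y → mid t y' → (∀ i ∈ T, y i = y' i) → wt y ≡ wt y' [MOD L] →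
            (∃ w, 0 < wires v w ∧ g w y' = true) → (∃ w, 0 < wires v w ∧ g w y = true) := by
          rintro y y' hy hy' hyy hm ⟨w, hw, hwt⟩
          obtain ⟨w', h2, h3⟩ := hzero y y' hy hyy (wt y) w hw
            ((hch w hw y' hy' (wt y) hm.symm).2 hwt)
          exact ⟨w', h2, (hch w' h2 y hy (wt y) rfl).1 h3⟩
        exact ⟨key z' z hz' hz (fun i hi => (hT i hi).symm) hmod.symm, key z z' hz hz' hT hmod⟩
      · -- not
        rw [Bool.eq_iff_iff, hr, hr]
        have key : ∀ y y' : α → Bool, mid t y → mid t y' → (∀ i ∈ T, y i = y' i) → wt y ≡ wt y' [MOD L] →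
            (∀ w, 0 < wires v w → g w y = false) → (∀ w, 0 < wires v w → g w y' = false) := by
          intro y y' hy hy' hyy hm hall w hw
          by_contra hcon
          have hcon' : g w y' = true := by simpa using hcon
          obtain ⟨w', h2, h3⟩ := hzero y y' hy hyy (wt y) w hw
            ((hch w hw y' hy' (wt y) hm.symm).2 hcon')
          have h4 := (hch w' h2 y hy (wt y) rfl).1 h3
          rw [hall w' h2] at h4
          exact absurd h4 (by simp)
        exact ⟨key z z' hz hz' hT hmod, key z' z hz' hz (fun i hi => (hT i hi).symm) hmod.symm⟩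
      · -- mod
        have hcount : ∀ y : α → Bool, mid t y → ∀ ρ, wt y ≡ ρ [MOD L] →
            ∑ w, wires v w * (g w y).toNat = PP t L g wires (Tn t L g wires r) v y ρ := by
          intro y hy ρ hρ
          unfold PP
          apply Finset.sum_congr rfl
          intro w _
          by_cases hw : 0 < wires v w
          · have := hch w hw y hy ρ hρ
            cases hg : g w y
            · rw [hg] at this
              rw [if_neg (by rw [this]; simp)]; rfl
            · rw [hg] at this
              rw [if_pos (by rw [this])]; rfl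
          · rw [Nat.eq_zero_of_not_pos hw, zero_mul, zero_mul]
        have key : ∀ y y' : α → Bool, mid t y → mid t y' → (∀ i ∈ T, y i = y' i) → wt y ≡ wt y' [MOD L] →
            wt y ≤ wt y' → (m ∣ ∑ w, wires v w * (g w y).toNat ↔
              m ∣ ∑ w, wires v w * (g w y').toNat) := by
          intro y y' hy hy' hyy hm hle
          rw [hcount y hy (wt y) rfl, hcount y' hy' (wt y) hm.symm]
          obtain ⟨y'', h1, h2, h3⟩ := exists_above T y (wt y') hle (by
            unfold mid at hy'; omega)
          have h4 : PP t L g wires (Tn t L g wires r) v y' (wt y) =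
              PP t L g wires (Tn t L g wires r) v y'' (wt y) :=
            hPs (wt y) y' y'' (fun i hi => (hyy i hi).symm.trans (h2 i hi)) h3.symm
          rw [h4]
          have h5 := mod_claim m t (fun z => PP t L g wires (Tn t L g wires r) v z (wt y)) T
            (hPs (wt y)) (fun w => wires v w)
            (fun w z => Phi t L (Tn t L g wires r w) (g w) z (wt y)) (Tn t L g wires r)
            (hsmall r) (fun w z z' h => Phi_congr h) (fun z => rfl) y y'' h1 h2 (by
              apply hL
              rw [h3]
              exact (Nat.modEq_iff_dvd' hle).1 hm)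
          exact h5.dvd_iff (dvd_refl m)
        rw [Bool.eq_iff_iff, hr, hr, not_iff_not]
        rcases le_total (wt z) (wt z') with h | h
        · exact key z z' hz hz' hT hmod h
        · exact (key z' z hz' hz (fun i hi => (hT i hi).symm) hmod.symm h).symm
  exact ⟨Tn t L g wires (rank v + 1) v, hsmall _ v, hreg _ v (by omega)⟩

end Pool.Agent.TH71.SC
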